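import Pool.Agent.H37.CNZ.Stmts

/-!
# Row ZBD of board `cnz`: the reduced degrees in a fixed cover are bounded
-/

set_option autoImplicit false

namespace Pool.CND

open Polynomial

namespace H14ZBD

theorem poly_aux {k : Type} [Field k] (p : ℕ) (hp : p.Prime) (P Q F : k[X]) (hQ : Q ≠ 0)
    (hF : F ≠ 0) (hpa : ¬ p ∣ F.natDegree) (heq : P ^ p - P * Q ^ (p - 1) = F * Q ^ p) : False := by
  have hp1 : 1 < p := hp.one_lt
  have hR : (F * Q ^ p : k[X]).natDegree = F.natDegree + p * Q.natDegree := by
    rw [natDegree_mul hF (pow_ne_zero _ hQ), natDegree_pow]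
  have hM : (P * Q ^ (p - 1)).natDegree ≤ P.natDegree + (p - 1) * Q.natDegree := by
    refine natDegree_mul_le.trans ?_
    rw [natDegree_pow]
  have hF1 : 1 ≤ F.natDegree := by
    rcases Nat.eq_zero_or_pos F.natDegree with h | h
    · rw [h] at hpa
      exact absurd (dvd_zero p) hpa
    · exact h
  obtain ⟨q, rfl⟩ : ∃ q, p = q + 2 := ⟨p - 2, by omega⟩
  have e1 : q + 2 - 1 = q + 1 := rfl
  rw [e1] at hM
  rcases lt_or_ge Q.natDegree P.natDegree with hlt | hge
  · have hL : (P ^ (q + 2) - P * Q ^ (q + 2 - 1)).natDegree = (q + 2) * P.natDegree := by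
      rw [natDegree_sub_eq_left_of_natDegree_lt]
      · rw [natDegree_pow]
      · rw [natDegree_pow, e1]
        refine lt_of_le_of_lt hM ?_
        nlinarith
    rw [heq, hR] at hL
    apply hpa
    have h2 : F.natDegree = (q + 2) * (P.natDegree - Q.natDegree) := by
      rw [Nat.mul_sub]; omega
    exact ⟨_, h2⟩
  · have hL : (P ^ (q + 2) - P * Q ^ (q + 2 - 1)).natDegree ≤ (q + 2) * Q.natDegree := by
      refine (natDegree_sub_le _ _).trans (max_le ?_ ?_)
      · rw [natDegree_pow]; exact Nat.mul_le_mul_left _ hge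
      · rw [e1]
        refine hM.trans ?_
        nlinarith
    rw [heq, hR] at hL
    omega

/-- the fixed field of the kernel of `ι` is `k(x)` -/
theorem fixed_ker {k L G : Type} [Field k] [Field L] [Algebra k L] [Group G] [Finite G]
    (ρ : G →* (L ≃ₐ[k] L)) (ι : G → k) (x : L) (hι : ∀ g h : G, ι (g * h) = ι g + ι h)
    (hx : ∀ g : G, ρ g x = x + algebraMap k L (ι g))
    (hcov : IsCover ρ (Polynomial.aeval x (Apol ι))) (w : L)
    (hw : ∀ g : G, ι g = 0 → ρ g w = w) : w ∈ IntermediateField.adjoin k {x} := by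
  classical
  have hι1 : ι 1 = 0 := by
    have h := hι 1 1
    rw [mul_one] at h
    exact left_eq_add.mp h
  have hιinv : ∀ g : G, ι g⁻¹ = - ι g := by
    intro g
    have h := hι g g⁻¹
    rw [mul_inv_cancel, hι1] at h
    exact eq_neg_of_add_eq_zero_right h.symm
  have hdep : ∀ g g' : G, ι g = ι g' → ρ g w = ρ g' w := by
    intro g g' h
    have h1 : g' = g * (g⁻¹ * g') := by group
    have h2 : ι (g⁻¹ * g') = 0 := by rw [hι, hιinv, h]; ring
    rw [h1, map_mul]
    show ρ g w = ρ g (ρ (g⁻¹ * g') w)
    rw [hw _ h2]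
  set V : Finset k := (Set.finite_range ι).toFinset with hV
  have hmem : ∀ v : k, v ∈ V ↔ ∃ g, ι g = v := by
    intro v
    rw [hV, Set.Finite.mem_toFinset, Set.mem_range]
  choose! γ hγ using fun (v : k) (hv : v ∈ V) => (hmem v).mp hv
  set ν : k → L := fun v => x + algebraMap k L v with hν
  set σ : k → L := fun v => ρ (γ v) w with hσ
  have hinj : Set.InjOn ν V := by
    intro u _ v _ h
    exact (algebraMap k L).injective (add_left_cancel h)
  set I : L[X] := Lagrange.interpolate V ν σ with hI
  have hfix : ∀ g : G, I.map (ρ g : L →+* L) = I := by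
    intro g
    refine Lagrange.eq_interpolate_of_eval_eq σ hinj ?_ ?_
    · rw [Polynomial.degree_map]
      exact Lagrange.degree_interpolate_lt σ hinj
    · intro v hv
      obtain ⟨g1, hg1⟩ := (hmem v).mp hv
      have hv' : v - ι g ∈ V := (hmem _).mpr ⟨g⁻¹ * g1, by rw [hι, hιinv, hg1]; ring⟩
      have h1 : ν v = ρ g (ν (v - ι g)) := by
        simp only [hν]
        rw [map_add, hx, AlgEquiv.commutes, map_sub]
        ring
      rw [h1]
      have h2 : (I.map (ρ g : L →+* L)).eval ((ρ g : L →+* L) (ν (v - ι g)))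
          = (ρ g : L →+* L) (I.eval (ν (v - ι g))) := by
        rw [Polynomial.eval_map, Polynomial.eval₂_at_apply]
      have h3 : I.eval (ν (v - ι g)) = σ (v - ι g) :=
        Lagrange.eval_interpolate_at_node σ hinj hv'
      have h4 : ρ g (σ (v - ι g)) = σ v := by
        simp only [hσ]
        have h5 : ρ g (ρ (γ (v - ι g)) w) = ρ (g * γ (v - ι g)) w := by
          rw [map_mul]
          rfl
        rw [h5]
        apply hdep
        rw [hι, hγ _ hv', hγ _ hv]
        ring
      rw [← h4, ← h3]
      exact h2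
  have hcoef : ∀ i, I.coeff i ∈ IntermediateField.adjoin k {x} := by
    intro i
    have h1 : I.coeff i ∈ IntermediateField.adjoin k {Polynomial.aeval x (Apol ι)} := by
      refine (hcov.fixed _).mp fun g => ?_
      have h2 := congrArg (fun q : L[X] => q.coeff i) (hfix g)
      simp only [Polynomial.coeff_map] at h2
      exact h2
    have h2 : IntermediateField.adjoin k {Polynomial.aeval x (Apol ι)}
        ≤ IntermediateField.adjoin k {x} := by
      rw [IntermediateField.adjoin_simple_le_iff]
      have hxm : x ∈ IntermediateField.adjoin k {x} := IntermediateField.mem_adjoin_simple_self k x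
      have h3 : Polynomial.aeval x (Apol ι)
          = ((Polynomial.aeval (⟨x, hxm⟩ : IntermediateField.adjoin k {x}) (Apol ι) :
            IntermediateField.adjoin k {x}) : L) := by
        rw [← IntermediateField.aeval_coe]
      rw [h3]
      exact SetLike.coe_mem _
    exact h2 h1
  have h0V : (0 : k) ∈ V := (hmem 0).mpr ⟨1, hι1⟩
  have hwI : w = I.eval x := by
    have h1 : I.eval (ν 0) = σ 0 := Lagrange.eval_interpolate_at_node σ hinj h0V
    have h2 : ν 0 = x := by simp [hν]
    have h3 : σ 0 = w := hw _ (hγ 0 h0V)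
    rw [h2, h3] at h1
    exact h1.symm
  rw [hwI, Polynomial.eval_eq_sum_range]
  refine sum_mem fun i _ => mul_mem (hcoef i) (pow_mem ?_ i)
  exact IntermediateField.mem_adjoin_simple_self k x

end H14ZBD

open H14ZBD in
theorem zbd_thm : S_ZBD := by
  intro p k L G _ _ _ _ _ _ ρ ι x hp hchar hι hx hcov
  have : Fact p.Prime := ⟨hp⟩
  have hcL : CharP L p := charP_of_injective_algebraMap (algebraMap k L).injective p
  set S : Set ℕ := {D | ∃ (y : L) (f r : Polynomial k), y ^ p - y = Polynomial.aeval x f ∧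
    ¬ p ∣ D ∧ (f - (r ^ p - r)).natDegree = D} with hS
  by_cases hbdd : BddAbove S
  · obtain ⟨B, hB⟩ := hbdd
    exact ⟨B, fun y f r D h1 h2 h3 => hB ⟨y, f, r, h1, h2, h3⟩⟩
  exfalso
  have hinf : S.Infinite := Set.infinite_of_not_bddAbove hbdd
  have hch : ∀ D : ℕ, ∃ (y : L) (f r : Polynomial k), D ∈ S → (y ^ p - y = Polynomial.aeval x f ∧
      ¬ p ∣ D ∧ (f - (r ^ p - r)).natDegree = D) := by
    intro D
    by_cases hD : D ∈ S
    · obtain ⟨y, f, r, h⟩ := hD
      exact ⟨y, f, r, fun _ => h⟩
    · exact ⟨0, 0, 0, fun h => absurd h hD⟩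
  choose y f r hyfr using hch
  have hR : {c : L | c ^ p - c = 0}.Finite := by
    have h0 : (X ^ p - X : L[X]) ≠ 0 := FiniteField.X_pow_card_sub_X_ne_zero L hp.one_lt
    refine (Polynomial.finite_setOfPred_isRoot h0).subset ?_
    intro c hc
    simp only [Set.mem_ofPred_eq] at hc ⊢
    simp [IsRoot.def, hc]
  classical
  have hfixx : ∀ g : G, ι g = 0 → ρ g x = x := by
    intro g hg
    rw [hx, hg, map_zero, add_zero]
  have hfixa : ∀ g : G, ι g = 0 → ∀ q : k[X], ρ g (Polynomial.aeval x q) = Polynomial.aeval x q := by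
    intro g hg q
    have h1 : ρ g (Polynomial.aeval x q) = Polynomial.aeval (ρ g x) q :=
      (Polynomial.aeval_algHom_apply ((ρ g : L ≃ₐ[k] L) : L →ₐ[k] L) x q).symm
    rw [h1, hfixx g hg]
  obtain ⟨D, hD, D', hD', hne, heq⟩ := hinf.exists_ne_map_eq_of_mapsTo
    (f := fun D => fun g : G => if ι g = 0 then ρ g (y D) - y D else 0)
    (t := Set.pi Set.univ (fun _ : G => {c : L | c ^ p - c = 0}))
    (by
      intro D hD g _
      show (if ι g = 0 then ρ g (y D) - y D else 0) ^ p - (if ι g = 0 then ρ g (y D) - y D else 0)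
        = 0
      by_cases hg : ι g = 0
      · rw [if_pos hg]
        have h1 := congrArg (ρ g) (hyfr D hD).1
        rw [map_sub, map_pow, hfixa g hg] at h1
        rw [sub_pow_char]
        linear_combination h1 - (hyfr D hD).1
      · rw [if_neg hg, zero_pow hp.ne_zero, sub_zero])
    (Set.Finite.pi fun _ => hR)
  have main : ∀ D ∈ S, ∀ D' ∈ S, D' < D →
      (fun g : G => if ι g = 0 then ρ g (y D) - y D else 0)
        = (fun g : G => if ι g = 0 then ρ g (y D') - y D' else 0) → False := by
    intro D hD D' hD' hlt heq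
    obtain ⟨h1, h2, h3⟩ := hyfr D hD
    obtain ⟨h1', h2', h3'⟩ := hyfr D' hD'
    set F : k[X] := (f D - (r D ^ p - r D)) - (f D' - (r D' ^ p - r D')) with hF
    have hFd : F.natDegree = D := by
      rw [hF, natDegree_sub_eq_left_of_natDegree_lt]
      · exact h3
      · rw [h3, h3']; exact hlt
    have hF0 : F ≠ 0 := by
      intro h
      rw [h, natDegree_zero] at hFd
      omega
    set w : L := y D - y D' - Polynomial.aeval x (r D - r D') with hw
    have hwp : w ^ p - w = Polynomial.aeval x F := by
      have e1 : w ^ p = y D ^ p - y D' ^ p - ((Polynomial.aeval x (r D)) ^ p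
          - (Polynomial.aeval x (r D')) ^ p) := by
        rw [hw, map_sub, sub_pow_char, sub_pow_char, sub_pow_char]
      have e2 : Polynomial.aeval x F = (Polynomial.aeval x (f D) - ((Polynomial.aeval x (r D)) ^ p
          - Polynomial.aeval x (r D))) - (Polynomial.aeval x (f D')
            - ((Polynomial.aeval x (r D')) ^ p - Polynomial.aeval x (r D'))) := by
        rw [hF]
        simp only [map_sub, map_pow]
      rw [e1, e2, hw, map_sub]
      linear_combination h1 - h1'
    have hwfix : ∀ g : G, ι g = 0 → ρ g w = w := by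
      intro g hg
      have h4 := congrFun heq g
      simp only [if_pos hg] at h4
      rw [hw, map_sub, map_sub, hfixa g hg]
      linear_combination h4
    have hin := fixed_ker ρ ι x hι hx hcov w hwfix
    rw [IntermediateField.mem_adjoin_simple_iff] at hin
    obtain ⟨P, Q, hPQ⟩ := hin
    have htr : ∀ q : k[X], Polynomial.aeval x q = 0 → q = 0 := by
      have hxt : Transcendental k x := (transcendental_aeval_iff.mp hcov.trans).1
      rw [transcendental_iff] at hxt
      exact hxt
    by_cases hQ : Q = 0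
    · rw [hQ, map_zero, div_zero] at hPQ
      rw [hPQ, zero_pow hp.ne_zero, sub_zero] at hwp
      exact hF0 (htr F hwp.symm)
    · have hQ' : aeval x Q ≠ 0 := fun h => hQ (htr Q h)
      refine poly_aux p hp P Q F hQ hF0 (by rw [hFd]; exact h2) ?_
      rw [← sub_eq_zero]
      apply htr
      rw [map_sub, map_sub, map_mul, map_mul, map_pow, map_pow, map_pow, ← hwp, hPQ]
      obtain ⟨q, hq⟩ : ∃ q, p = q + 1 := ⟨p - 1, by have := hp.pos; omega⟩
      rw [hq, show q + 1 - 1 = q from rfl, div_pow]
      generalize aeval x P = A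
      generalize aeval x Q = B at hQ'
      have e1 : A ^ (q + 1) / B ^ (q + 1) * B ^ (q + 1) = A ^ (q + 1) :=
        div_mul_cancel₀ _ (pow_ne_zero _ hQ')
      have e2 : A / B * B ^ (q + 1) = A * B ^ q := by
        rw [pow_succ', ← mul_assoc, div_mul_cancel₀ _ hQ']
      linear_combination -e1 + e2
  rcases lt_or_gt_of_ne hne with h | h
  · exact main D' hD' D hD h heq.symm
  · exact main D hD D' hD' h heq

end Pool.CND
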